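import Pool.Agent.MVK.Stmts

/-!
# Squad MVK: row GTH, a letter can be gathered
-/

namespace Pool.Agent.MVK.H50

open Pool.Agent.Helper14_MV Pool.Agent.Helper2_MV Pool.Agent.MVD Pool.Agent.MVK

theorem gth (h1 : AbsStmt) (h2 : KgpStmt) (h3 : KmStmt) : GthStmt := by
  intro β hM hC hI
  have main : ∀ (n : ℕ) (p u q : List ℕ) (y : ℕ), u.length = n →
      Mult u (p ++ y :: (u ++ y :: q)) → Kd β y (p ++ y :: (u ++ y :: q)) := by
    intro n
    induction n using Nat.strong_induction_on with
    | _ n ih =>
      intro p u q y hn hmul
      by_cases hy : y ∈ u
      · -- the letter y occurs in u
        obtain ⟨u1, u2, rfl⟩ := List.append_of_mem hy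
        have e : p ++ y :: ((u1 ++ y :: u2) ++ y :: q) = p ++ y :: (u1 ++ y :: (u2 ++ y :: q)) := by
          simp
        rw [e] at hmul ⊢
        refine ih u1.length ?_ p u1 (u2 ++ y :: q) y rfl ?_
        · simp at hn
          omega
        · intro a ha
          exact hmul a (List.mem_append_left _ ha)
      · by_cases hnd : u.Nodup
        · refine h2 β hC (u.length + 1) (fun n _ P Q hPQ => h3 β hM hC hI n P Q hPQ) p u q y hnd hy
            (Nat.lt_succ_self _) ?_
          intro c hc
          have h4 := hmul c hc
          have hcy : y ≠ c := fun h => hy (h ▸ hc)
          have h5 : u.count c = 1 := List.count_eq_one_of_mem hnd hc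
          rw [List.count_append, List.count_cons_of_ne hcy, List.count_append,
            List.count_cons_of_ne hcy, h5] at h4
          by_contra hno
          push Not at hno
          rw [List.count_eq_zero_of_not_mem hno.1, List.count_eq_zero_of_not_mem hno.2] at h4
          omega
        · -- a repeated letter v
          obtain ⟨v, hv⟩ : ∃ v, 2 ≤ u.count v := by
            by_contra hno
            push Not at hno
            exact hnd (List.nodup_iff_count_le_one.2 fun a => by
              have := hno a
              omega)
          have hvu : v ∈ u := List.count_pos_iff.1 (by omega)
          obtain ⟨u1, u2, u3, rfl⟩ : ∃ u1 u2 u3, u = u1 ++ v :: (u2 ++ v :: u3) := by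
            obtain ⟨s, t, rfl⟩ := List.append_of_mem hvu
            rw [List.count_append, List.count_cons_self] at hv
            by_cases hs : v ∈ s
            · obtain ⟨a, b, rfl⟩ := List.append_of_mem hs
              exact ⟨a, b, t, by simp⟩
            · have ht : v ∈ t := by
                by_contra ht
                rw [List.count_eq_zero_of_not_mem hs, List.count_eq_zero_of_not_mem ht] at hv
                omega
              obtain ⟨a, b, rfl⟩ := List.append_of_mem ht
              exact ⟨s, a, b, rfl⟩
          have hvy : v ≠ y := fun h => hy (h ▸ hvu)
          -- gather v
          have e : p ++ y :: ((u1 ++ v :: (u2 ++ v :: u3)) ++ y :: q) =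
              (p ++ y :: u1) ++ v :: (u2 ++ v :: (u3 ++ y :: q)) := by
            simp
          have hk : Kd β v (p ++ y :: ((u1 ++ v :: (u2 ++ v :: u3)) ++ y :: q)) := by
            rw [e] at hmul ⊢
            refine ih u2.length ?_ (p ++ y :: u1) u2 (u3 ++ y :: q) v rfl ?_
            · simp at hn
              omega
            · intro a ha
              exact hmul a (List.mem_append_right _ (List.mem_cons_of_mem _
                (List.mem_append_left _ ha)))
          generalize hu : u1 ++ v :: (u2 ++ v :: u3) = u at *
          -- the word without v
          have e2 : (p ++ y :: (u ++ y :: q)).filter (fun c => decide (c ≠ v)) =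
              p.filter (fun c => decide (c ≠ v)) ++ y :: (u.filter (fun c => decide (c ≠ v)) ++
                y :: q.filter (fun c => decide (c ≠ v))) := by
            have hyv : (decide (y ≠ v)) = true := by
              simpa using hvy.symm
            simp only [List.filter_append, List.filter_cons, hyv, if_true]
          have hlen : (u.filter (fun c => decide (c ≠ v))).length < n := by
            rw [← hn]
            exact List.length_filter_lt_length_iff_exists.2 ⟨v, hvu, by simp⟩
          have hk2 : Kd β y ((p ++ y :: (u ++ y :: q)).filter (fun c => decide (c ≠ v))) := by
            rw [e2]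
            refine ih _ hlen _ _ _ y rfl ?_
            rw [← e2]
            intro a ha
            rw [List.mem_filter] at ha
            rw [List.count_filter (by simpa using ha.2)]
            exact hmul a ha.1
          refine (h1 β).2 y _ _ (FIC.trans _ hk (RR.append hk2 (RR.refl _))) ?_
          have hc : ((p ++ y :: (u ++ y :: q)).filter (fun c => decide (c ≠ v))).count y =
              (p.count y + u.count y + q.count y) + 2 := by
            rw [List.count_filter (by simpa using hvy.symm)]
            simp only [List.count_append, List.count_cons_self]
            omega
          rw [hc]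
          have e3 : List.replicate (p.count y + u.count y + q.count y + 2) y =
              y :: y :: List.replicate (p.count y + u.count y + q.count y) y := by
            rw [List.replicate_succ, List.replicate_succ]
          rw [e3, List.append_assoc]
          exact (h1 β).1 hC _ _ y
  intro p u q y hmul
  exact main u.length p u q y rfl hmul

end Pool.Agent.MVK.H50
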